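import Mathlib

namespace Pool.Agent.H.MP_4155d9_nt

open PowerSeries Filter Topology

def S (a : ℕ → ℕ) (n k : ℕ) : Set (Fin k → ℕ) := {x | ∑ i : Fin k, x i * a i = n}

lemma S_finite (a : ℕ → ℕ) (ha : ∀ i, 0 < a i) (n k : ℕ) : (S a n k).Finite := by
  refine (Set.Finite.pi' (fun _ : Fin k => Set.finite_Iic n)).subset ?_
  intro x hx i
  simp only [S, Set.mem_ofPred_eq] at hx
  have h1 : x i * a i ≤ n := by
    rw [← hx]
    exact Finset.single_le_sum (f := fun i : Fin k => x i * a i) (fun _ _ => Nat.zero_le _)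
      (Finset.mem_univ i)
  have h2 : x i ≤ x i * a i := Nat.le_mul_of_pos_right _ (ha i)
  simp only [Set.mem_Iic]
  omega

lemma rec_S (a : ℕ → ℕ) (ha : ∀ i, 0 < a i) (n k : ℕ) :
    (S a n (k + 1)).ncard = (S a n k).ncard +
      if a k ≤ n then (S a (n - a k) (k + 1)).ncard else 0 := by
  classical
  have hsplit : S a n (k + 1) = (S a n (k + 1) ∩ {x | x (Fin.last k) = 0}) ∪
      (S a n (k + 1) ∩ {x | x (Fin.last k) ≠ 0}) := by
    ext x; simp only [Set.mem_union, Set.mem_inter_iff, Set.mem_ofPred_eq]; tauto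
  have hf := S_finite a ha n (k + 1)
  rw [hsplit, Set.ncard_union_eq (by
    rw [Set.disjoint_left]; rintro x ⟨-, h1⟩ ⟨-, h2⟩; exact h2 h1)
    (hf.subset Set.inter_subset_left) (hf.subset Set.inter_subset_left)]
  congr 1
  · have : S a n (k + 1) ∩ {x | x (Fin.last k) = 0} =
        (fun y : Fin k → ℕ => (Fin.snoc y 0 : Fin (k + 1) → ℕ)) '' S a n k := by
      ext x
      simp only [S, Set.mem_inter_iff, Set.mem_ofPred_eq, Set.mem_image, Fin.sum_univ_castSucc]
      constructor
      · rintro ⟨h1, h2⟩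
        refine ⟨Fin.init x, ?_, ?_⟩
        · simpa [h2, Fin.init] using h1
        · rw [← h2]; exact Fin.snoc_init_self x
      · rintro ⟨y, hy, rfl⟩
        simpa using hy
    rw [this, Set.ncard_image_of_injective]
    intro y z h
    have := congrArg Fin.init h
    simpa using this
  · split_ifs with h
    · have : S a n (k + 1) ∩ {x | x (Fin.last k) ≠ 0} =
          (fun y : Fin (k + 1) → ℕ => y + Pi.single (Fin.last k) 1) '' S a (n - a k) (k + 1) := by
        ext x
        simp only [S, Set.mem_inter_iff, Set.mem_ofPred_eq, Set.mem_image, Fin.sum_univ_castSucc]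
        constructor
        · rintro ⟨h1, h2⟩
          refine ⟨x - Pi.single (Fin.last k) 1, ?_, ?_⟩
          · simp only [Pi.sub_apply, Pi.single_eq_same, Fin.val_last, Fin.val_castSucc] at h1 ⊢
            have e : ∑ i : Fin k, (x i.castSucc - (Pi.single (Fin.last k) 1 : Fin (k + 1) → ℕ)
                i.castSucc) * a i = ∑ i : Fin k, x i.castSucc * a i := by
              refine Finset.sum_congr rfl fun i _ => ?_
              rw [Pi.single_eq_of_ne (Fin.castSucc_lt_last i).ne]; simp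
            rw [e]
            obtain ⟨t, ht⟩ := Nat.exists_eq_succ_of_ne_zero h2
            rw [ht] at h1 ⊢
            simp only [Nat.succ_eq_add_one, Nat.add_sub_cancel, add_mul, one_mul] at h1 ⊢
            omega
          · ext i
            by_cases hi : i = Fin.last k
            · subst hi
              simp only [Pi.add_apply, Pi.sub_apply, Pi.single_eq_same]
              omega
            · simp [Pi.single_eq_of_ne hi]
        · rintro ⟨y, hy, rfl⟩
          simp only [Pi.add_apply, Pi.single_eq_same, Fin.val_last, Fin.val_castSucc] at hy ⊢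
          refine ⟨?_, by omega⟩
          have e : ∑ i : Fin k, (y i.castSucc + (Pi.single (Fin.last k) 1 : Fin (k + 1) → ℕ)
              i.castSucc) * a i = ∑ i : Fin k, y i.castSucc * a i := by
            refine Finset.sum_congr rfl fun i _ => ?_
            rw [Pi.single_eq_of_ne (Fin.castSucc_lt_last i).ne]; simp
          rw [e, add_mul, one_mul]
          omega
      rw [this, Set.ncard_image_of_injective]
      exact add_left_injective _
    · have : S a n (k + 1) ∩ {x | x (Fin.last k) ≠ 0} = ∅ := by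
        ext x
        simp only [S, Set.mem_inter_iff, Set.mem_ofPred_eq, Fin.sum_univ_castSucc,
          Set.mem_empty_iff_false, iff_false, not_and, Fin.val_last, not_not]
        intro h1
        by_contra h2
        have : a k ≤ x (Fin.last k) * a k := Nat.le_mul_of_pos_left _ (Nat.pos_of_ne_zero h2)
        omega
      rw [this, Set.ncard_empty]

noncomputable def F (a : ℕ → ℕ) (k : ℕ) : (ZMod 2)⟦X⟧ := mk fun n => ((S a n k).ncard : ZMod 2)

lemma F_zero (a : ℕ → ℕ) : F a 0 = 1 := by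
  ext n
  rw [F, coeff_mk, coeff_one]
  split_ifs with h
  · subst h
    have : S a 0 0 = Set.univ := by ext x; simp [S]
    rw [this, Set.ncard_univ]; simp
  · have : S a n 0 = ∅ := by ext x; simp [S]; omega
    rw [this]; simp

lemma F_succ (a : ℕ → ℕ) (ha : ∀ i, 0 < a i) (k : ℕ) :
    F a (k + 1) * (1 - X ^ a k) = F a k := by
  ext n
  rw [mul_sub, mul_one, map_sub, coeff_mul_X_pow']
  simp only [F, coeff_mk]
  rw [rec_S a ha n k]
  split_ifs <;> simp

lemma F_prod (a : ℕ → ℕ) (ha : ∀ i, 0 < a i) (k : ℕ) :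
    F a k * ∏ i ∈ Finset.range k, (1 - X ^ a i) = 1 := by
  induction k with
  | zero => simp [F_zero]
  | succ k ih =>
    rw [Finset.prod_range_succ, mul_comm (∏ i ∈ Finset.range k, _), ← mul_assoc, F_succ a ha, ih]

lemma geom (c m : ℕ) (hm : Odd m) : ∃ g : Polynomial (ZMod 2), g.eval 1 = 1 ∧
    (1 - Polynomial.X ^ (c * m) : Polynomial (ZMod 2)) = (1 - Polynomial.X ^ c) * g := by
  refine ⟨∑ j ∈ Finset.range m, (Polynomial.X ^ c) ^ j, ?_, ?_⟩
  · simp only [Polynomial.eval_finsetSum, Polynomial.eval_pow, Polynomial.eval_X, one_pow,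
      Finset.sum_const, Finset.card_range, nsmul_eq_mul, mul_one]
    exact (ZMod.natCast_eq_one_iff_odd).2 hm
  · rw [pow_mul, mul_neg_geom_sum]

lemma key (a : ℕ → ℕ) (t : ℕ) (h1 : ∃ m, Odd m ∧ a 1 = 2 ^ t * m)
    (h2 : ∀ i, ∃ m, Odd m ∧ a (i + 2) = 2 ^ (t + i) * m) (s : ℕ) :
    ∃ M, Odd M ∧ ∃ g : Polynomial (ZMod 2), g.eval 1 = 1 ∧
      (1 - Polynomial.X ^ (2 ^ (t + s) * M) : Polynomial (ZMod 2)) =
        (∏ i ∈ Finset.range (s + 1), (1 - Polynomial.X ^ a (i + 1))) * g := by
  induction s with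
  | zero =>
    obtain ⟨m, hm, e⟩ := h1
    exact ⟨m, hm, 1, by simp, by simp [e]⟩
  | succ s ih =>
    obtain ⟨M, hM, g, hg, e⟩ := ih
    obtain ⟨m, hm, e2⟩ := h2 s
    obtain ⟨g1, hg1, e3⟩ := geom (2 ^ (t + s) * M) m hm
    obtain ⟨g2, hg2, e4⟩ := geom (2 ^ (t + s) * m) M hM
    refine ⟨M * m, hM.mul hm, g * g1 * g2, by simp [hg, hg1, hg2], ?_⟩
    rw [Finset.prod_range_succ, show s + 1 + 1 = s + 2 from rfl, e2]
    have e5 : (1 - Polynomial.X ^ (2 ^ (t + (s + 1)) * (M * m)) : Polynomial (ZMod 2)) =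
        (1 - Polynomial.X ^ (2 ^ (t + s) * M * m)) * (1 - Polynomial.X ^ (2 ^ (t + s) * m * M)) := by
      rw [show 2 ^ (t + s) * m * M = 2 ^ (t + s) * M * m by ring,
        show 2 ^ (t + (s + 1)) * (M * m) = (2 ^ (t + s) * M * m) * 2 by ring, pow_mul]
      generalize (Polynomial.X ^ (2 ^ (t + s) * M * m) : Polynomial (ZMod 2)) = y
      have h : (2 : Polynomial (ZMod 2)) = 0 := CharTwo.two_eq_zero
      linear_combination (y - y ^ 2) * h
    rw [e5, e3, e4, e]
    ring

lemma anti (a : ℕ → ℕ) (ha : ∀ i, 0 < a i) (h0 : a 0 = 1) (t : ℕ)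
    (h1 : ∃ m, Odd m ∧ a 1 = 2 ^ t * m)
    (h2 : ∀ i, ∃ m, Odd m ∧ a (i + 2) = 2 ^ (t + i) * m) (s : ℕ) :
    ∃ T, ∀ n, (Odd (S a (n + T) (s + 2)).ncard ↔ ¬ Odd (S a n (s + 2)).ncard) := by
  obtain ⟨M, hM, g, hg, e⟩ := key a t h1 h2 s
  set T := 2 ^ (t + s) * M with hT
  have hTpos : 0 < T := Nat.mul_pos (by positivity) hM.pos
  refine ⟨T, fun n => ?_⟩
  have hdeg : g.natDegree ≤ T := by
    have hne : (1 - Polynomial.X ^ T : Polynomial (ZMod 2)) ≠ 0 := by
      intro h
      have := congrArg (Polynomial.eval 0) h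
      simp [hTpos.ne'] at this
    have h3 := Polynomial.natDegree_le_of_dvd (Dvd.intro_left _ e.symm) hne
    refine h3.trans ((Polynomial.natDegree_sub_le _ _).trans ?_)
    simp
  have e' : (1 - X ^ T : (ZMod 2)⟦X⟧) =
      (∏ i ∈ Finset.range (s + 1), (1 - X ^ a (i + 1))) * (g : (ZMod 2)⟦X⟧) := by
    have := congrArg (Polynomial.coeToPowerSeries.ringHom (R := ZMod 2)) e
    rw [map_mul, map_prod] at this
    simpa using this
  have hp := F_prod a ha (s + 2)
  rw [Finset.prod_range_succ', h0, pow_one] at hp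
  have e6 : F a (s + 2) * (1 - X ^ T) = (g : (ZMod 2)⟦X⟧) * mk 1 := by
    have h7 : (mk 1 : (ZMod 2)⟦X⟧) * (1 - X) = 1 := mk_one_mul_one_sub_eq_one _
    rw [e']
    linear_combination (g : (ZMod 2)⟦X⟧) * mk 1 * hp -
      F a (s + 2) * (∏ i ∈ Finset.range (s + 1), (1 - X ^ a (i + 1))) * (g : (ZMod 2)⟦X⟧) * h7
  have e8 := congrArg (coeff (n + T)) e6
  rw [mul_sub, mul_one, map_sub, coeff_mul_X_pow, coeff_mul] at e8
  simp only [F, coeff_mk, Polynomial.coeff_coe, Pi.one_apply, mul_one] at e8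
  rw [Finset.Nat.sum_antidiagonal_eq_sum_range_succ (fun i _ => g.coeff i)] at e8
  have e9 : ∑ i ∈ Finset.range (n + T).succ, g.coeff i = 1 := by
    rw [← hg, Polynomial.eval_eq_sum_range' (n := (n + T).succ) (by omega)]
    simp
  rw [e9] at e8
  rw [← ZMod.natCast_eq_one_iff_odd, ← ZMod.natCast_eq_one_iff_odd]
  generalize ((S a (n + T) (s + 2)).ncard : ZMod 2) = u at *
  generalize ((S a n (s + 2)).ncard : ZMod 2) = v at *
  revert u v
  decide

lemma dens (P : ℕ → Prop) [DecidablePred P] (T : ℕ) (h : ∀ n, P (n + T) ↔ ¬ P n) :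
    Tendsto (fun N : ℕ => (((Finset.range (N + 1)).filter P).card : ℝ) / N) atTop (𝓝 (1 / 2)) := by
  have hc : ∀ N, ((Finset.range N).filter P).card = Nat.count P N := fun N =>
    (Nat.count_eq_card_filter_range P N).symm
  simp only [hc]
  have h1 : ∀ N, Nat.count P (N + T) + Nat.count P N = N + Nat.count P T := by
    intro N
    induction N with
    | zero => simp
    | succ N ih =>
      rw [show N + 1 + T = (N + T) + 1 by ring, Nat.count_succ, Nat.count_succ]
      by_cases hP : P N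
      · have : ¬ P (N + T) := fun h' => (h N).1 h' hP
        simp only [hP, this, if_true, if_false]; omega
      · have : P (N + T) := (h N).2 hP
        simp only [hP, this, if_true, if_false]; omega
  have h2 : ∀ N, Nat.count P N ≤ Nat.count P (N + T) := fun N =>
    Nat.count_monotone P (Nat.le_add_right _ _)
  have h3 : ∀ N, Nat.count P (N + T) ≤ Nat.count P N + T := fun N => by
    rw [Nat.count_add]; exact Nat.add_le_add_left (Nat.count_le _) _
  have h4 : Nat.count P T ≤ T := Nat.count_le _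
  have hlim : ∀ c : ℝ, Tendsto (fun N : ℕ => (1 / 2 : ℝ) + c / N) atTop (𝓝 (1 / 2)) := by
    intro c
    have := (tendsto_const_div_atTop_nhds_zero_nat c).const_add (1 / 2 : ℝ)
    simpa using this
  refine tendsto_of_tendsto_of_tendsto_of_le_of_le' (hlim (-(T : ℝ))) (hlim (T + 1)) ?_ ?_
  · filter_upwards [eventually_gt_atTop 0] with N hN
    have hN' : (0 : ℝ) < N := by exact_mod_cast hN
    have : N ≤ 2 * Nat.count P (N + 1) + 2 * T := by
      have := h1 (N + 1); have := h3 (N + 1); omega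
    have h5 : (N : ℝ) ≤ 2 * Nat.count P (N + 1) + 2 * T := by exact_mod_cast this
    rw [le_div_iff₀ hN', add_mul, div_mul_cancel₀ _ hN'.ne']
    linarith
  · filter_upwards [eventually_gt_atTop 0] with N hN
    have hN' : (0 : ℝ) < N := by exact_mod_cast hN
    have : 2 * Nat.count P (N + 1) ≤ N + 2 * (T + 1) := by
      have := h1 (N + 1); have := h2 (N + 1); omega
    have h5 : 2 * (Nat.count P (N + 1) : ℝ) ≤ N + 2 * (T + 1) := by exact_mod_cast this
    rw [div_le_iff₀ hN', add_mul, div_mul_cancel₀ _ hN'.ne']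
    linarith

lemma one_part (a : ℕ → ℕ) (h0 : a 0 = 1) (n : ℕ) : (S a n 1).ncard = 1 := by
  have : S a n 1 = {fun _ => n} := by
    ext x
    simp only [S, Set.mem_ofPred_eq, Fin.sum_univ_one, Set.mem_singleton_iff]
    simp only [Fin.val_zero, h0, mul_one]
    constructor
    · intro h; ext i; rw [Subsingleton.elim i 0, h]
    · rintro rfl; rfl
  rw [this, Set.ncard_singleton]

end Pool.Agent.H.MP_4155d9_nt
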